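import Pool.Agent.H752.KM.Stubs
import Pool.Agent.NPC.Dec

set_option autoImplicit false

/-!
# K4c (project KM): the bad event is improbable
-/

namespace Pool.Agent.H752.KM

open Pool.Agent.NPC Pool.Agent.H620R2.Gauge MeasureTheory Finset

namespace K4c

/-! ### Elementary facts -/

theorem length_pairBits (x w : List Bool) : (pairBits x w).length = 2 * x.length + 1 + w.length := by
  have h : ∀ x : List Bool, (x.flatMap (fun b => [true, b])).length = 2 * x.length := by
    intro x
    induction x with
    | nil => rfl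
    | cons b x ih => simp only [List.flatMap_cons, List.length_append, List.length_cons,
        List.length_nil, ih]; ring
  simp only [pairBits, List.length_append, List.length_cons, h]
  ring

theorem length_inp (k : ℕ) (w : List Bool) : (inp k (prec k w) w).length = 5 * w.length + 4 * k + 8 := by
  unfold inp prec
  rw [length_pairBits, length_pairBits, List.length_replicate, List.length_replicate]
  ring

theorem pairBits_inj {x y x' y' : List Bool} (h : pairBits x y = pairBits x' y') :
    x = x' ∧ y = y' := by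
  have h1 := congrArg unpair h
  rw [unpair_pairBits, unpair_pairBits] at h1
  exact ⟨congrArg Prod.fst h1, congrArg Prod.snd h1⟩

theorem qst_inj {x w x' w' : List Bool} {i i' : ℕ} (h : qst x w i = qst x' w' i')
    (hw : x = x' → w.length = w'.length) : x = x' ∧ w = w' ∧ i = i' := by
  obtain ⟨h1, h2⟩ := pairBits_inj h
  have h3 := List.append_inj h2 (hw h1)
  refine ⟨h1, h3.1, ?_⟩
  have := congrArg List.length h3.2
  rwa [List.length_replicate, List.length_replicate] at this

theorem valB_map_congr {n : ℕ} {v v' : ℕ → Bool} (h : ∀ i < n, v i = v' i) :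
    (List.range n).map v = (List.range n).map v' := by
  apply List.map_congr_left
  intro i hi
  exact h i (List.mem_range.1 hi)

theorem hitV_congr {m : ℕ} {w : List Bool} {v v' : ℕ → Bool} (h : ∀ i < 3 * m, v i = v' i) :
    HitV m w v ↔ HitV m w v' := by
  unfold HitV
  rw [valB_map_congr h]

variable {P : Polynomial ℕ} {X : Finset (List Bool)}

theorem slot_length (s : Slot P X) : s.w.length = s.m := by
  unfold Slot.w Slot.m
  exact List.length_ofFn

theorem slot_ext {s s' : Slot P X} (hx : s.x = s'.x) (hw : s.w = s'.w) : s = s' := by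
  obtain ⟨⟨x, hxm⟩, f⟩ := s
  obtain ⟨⟨x', hxm'⟩, f'⟩ := s'
  have hx' : x = x' := hx
  subst hx'
  have hw' : List.ofFn f = List.ofFn f' := hw
  have : f = f' := List.ofFn_injective hw'
  rw [this]

theorem slot_qst_inj {s s' : Slot P X} {i i' : ℕ} (h : qst s.x s.w i = qst s'.x s'.w i') :
    s = s' ∧ i = i' := by
  have hl : s.x = s'.x → s.w.length = s'.w.length := by
    intro hx
    rw [slot_length, slot_length]
    have hx' : s.1.1 = s'.1.1 := hx
    unfold Slot.m
    rw [hx']
  obtain ⟨h1, h2, h3⟩ := qst_inj h hl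
  exact ⟨slot_ext h1 h2, h3⟩

theorem mrg_qst (B : Oracle) (vm vp : Slot P X → ℕ → Bool) (η : Slot P X → Bool) (s : Slot P X)
    (i : ℕ) (hi : i < 3 * s.m) :
    mrg B vm vp η (qst s.x s.w i) = if η s then vp s i else vm s i := by
  classical
  have h : ∃ z : Slot P X × ℕ, z.2 < 3 * z.1.m ∧ qst s.x s.w i = qst z.1.x z.1.w z.2 :=
    ⟨(s, i), hi, rfl⟩
  unfold mrg
  rw [dif_pos h]
  have h1 := h.choose_spec.2
  obtain ⟨h2, h3⟩ := slot_qst_inj h1
  rw [← h2, ← h3]

theorem mrg_congr (B : Oracle) (vm vp : Slot P X → ℕ → Bool) (η η' : Slot P X → Bool)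
    (y : List Bool) (h : ∀ (s : Slot P X) (i : ℕ), i < 3 * s.m → y = qst s.x s.w i → η' s = η s) :
    mrg B vm vp η' y = mrg B vm vp η y := by
  classical
  by_cases hy : ∃ z : Slot P X × ℕ, z.2 < 3 * z.1.m ∧ y = qst z.1.x z.1.w z.2
  · obtain ⟨⟨s, i⟩, hi, rfl⟩ := hy
    rw [mrg_qst _ _ _ _ _ _ hi, mrg_qst _ _ _ _ _ _ hi, h s i hi rfl]
  · unfold mrg
    rw [dif_neg hy, dif_neg hy]

/-! ### Membership in the test language -/

theorem mem_TL_mrg (hX : X = X) (B : Oracle) (vm vp : Slot P X → ℕ → Bool) (η : Slot P X → Bool)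
    (hm : ∀ s : Slot P X, ¬ HitV s.m s.w (vm s)) (hp : ∀ s : Slot P X, HitV s.m s.w (vp s))
    (x : List Bool) (hx : x ∈ X) :
    x ∈ TL P (mrg B vm vp η) ↔ ∃ s : Slot P X, s.x = x ∧ η s = true := by
  constructor
  · rintro ⟨w, hw, hit⟩
    let s : Slot P X := ⟨⟨x, hx⟩, fun i => w.get (i.cast hw.symm)⟩
    have hsx : s.x = x := rfl
    have hsw : s.w = w := by
      show List.ofFn (fun i : Fin (P.eval x.length) => w.get (i.cast hw.symm)) = w
      apply List.ext_get
      · rw [List.length_ofFn, hw]
      · intro n h1 h2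
        simp
    have hsm : s.m = P.eval x.length := rfl
    refine ⟨s, hsx, ?_⟩
    by_contra hη
    have hη' : η s = false := by simpa using hη
    apply hm s
    rw [hsw, hsm]
    refine (hitV_congr ?_).1 hit
    intro i hi
    have := mrg_qst B vm vp η s i (by rw [hsm]; exact hi)
    rw [hη'] at this
    rw [hsx, hsw] at this
    simpa using this
  · rintro ⟨s, rfl, hη⟩
    refine ⟨s.w, slot_length s, ?_⟩
    have h1 := hp s
    refine (hitV_congr ?_).1 h1
    intro i hi
    have := mrg_qst B vm vp η s i hi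
    rw [hη] at this
    simpa using this.symm

theorem WA_eq_We {L : ℕ} (hX : X = (range L).image str) (B : Oracle)
    (vm vp : Slot P X → ℕ → Bool) (η : Slot P X → Bool)
    (hm : ∀ s : Slot P X, ¬ HitV s.m s.w (vm s)) (hp : ∀ s : Slot P X, HitV s.m s.w (vp s))
    (l : ℕ) (hl : l ≤ L) :
    WA P (mrg B vm vp η) l = We (fun s : Slot P X => idx s.x) η l := by
  classical
  unfold WA We Wd
  apply List.map_congr_left
  intro j hj
  have hj' : j < l := List.mem_range.1 hj
  have hmem : str j ∈ X := by
    rw [hX]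
    exact Finset.mem_image_of_mem _ (Finset.mem_range.2 (by omega))
  have h := mem_TL_mrg rfl B vm vp η hm hp (str j) hmem
  have h2 : (∃ s : Slot P X, s.x = str j ∧ η s = true) ↔
      ∃ s : Slot P X, idx s.x = j ∧ η s = true := by
    constructor
    · rintro ⟨s, h1, h2⟩
      exact ⟨s, by rw [h1, idx_str], h2⟩
    · rintro ⟨s, h1, h2⟩
      exact ⟨s, by rw [← h1, str_idx], h2⟩
  exact decide_eq_decide.2 (h.trans h2)

/-! ### Measurability -/

theorem measurable_of_finite (E : Set Oracle) (S : Set (List Bool)) (hS : S.Finite)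
    (h : ∀ A A' : Oracle, (∀ y ∈ S, A y = A' y) → (A ∈ E → A' ∈ E)) : MeasurableSet E := by
  have hf : Finite S := hS
  let r : Oracle → (S → Bool) := fun A y => A y.1
  have hr : Measurable r := measurable_pi_lambda _ fun y => measurable_pi_apply _
  have hE : E = r ⁻¹' (r '' E) := by
    apply Set.Subset.antisymm (Set.subset_preimage_image _ _)
    rintro A ⟨A', hA', he⟩
    refine h A' A (fun y hy => ?_) hA'
    exact congrFun he ⟨y, hy⟩
  rw [hE]
  exact hr (Set.toFinite _).measurableSet

theorem run_local (M : Alg) (x : List Bool) (n : ℕ) : ∀ a : List Bool,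
    ∃ S : Set (List Bool), S.Finite ∧ ∀ A A' : Oracle, (∀ y ∈ S, A y = A' y) →
      M.run A x n a = M.run A' x n a := by
  induction n with
  | zero => intro a; exact ⟨∅, Set.finite_empty, fun A A' _ => rfl⟩
  | succ n ih =>
    intro a
    rcases hq : M.D (pairBits x a) with _ | ⟨c, q⟩
    · exact ⟨∅, Set.finite_empty, fun A' _ _ => by simp only [Alg.run, hq]⟩
    · cases c with
      | true => exact ⟨∅, Set.finite_empty, fun A' _ _ => by simp only [Alg.run, hq]⟩
      | false =>
        obtain ⟨S1, f1, h1⟩ := ih (a ++ [true])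
        obtain ⟨S2, f2, h2⟩ := ih (a ++ [false])
        refine ⟨insert q (S1 ∪ S2), (f1.union f2).insert q, fun A A' h => ?_⟩
        simp only [Alg.run, hq]
        have hq' : A q = A' q := h q (Set.mem_insert _ _)
        rw [← hq']
        cases hA : A q with
        | true => exact h1 A A' fun y hy => h y (Set.mem_insert_of_mem _ (Or.inl hy))
        | false => exact h2 A A' fun y hy => h y (Set.mem_insert_of_mem _ (Or.inr hy))

theorem cap_local (M : Alg) (t : ℕ → ℕ) (k : ℕ) (w : List Bool) :
    ∃ S : Set (List Bool), S.Finite ∧ ∀ A A' : Oracle, (∀ y ∈ S, A y = A' y) →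
      cap (Fof M t A) k w = cap (Fof M t A') k w := by
  obtain ⟨S, f, h⟩ := run_local M (inp k (prec k w) w) (t (inp k (prec k w) w).length) []
  refine ⟨S, f, fun A A' hA => ?_⟩
  unfold cap Fof
  rw [h A A' hA]

theorem TL_local (P : Polynomial ℕ) (x : List Bool) :
    ∃ S : Set (List Bool), S.Finite ∧ ∀ A A' : Oracle, (∀ y ∈ S, A y = A' y) →
      (x ∈ TL P A ↔ x ∈ TL P A') := by
  refine ⟨Set.image2 (fun w i => qst x w i) {w : List Bool | w.length = P.eval x.length}
    (Set.Iio (3 * P.eval x.length)), Set.Finite.image2 _ (List.finite_length_eq _ _)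
      (Set.finite_Iio _), fun A A' hA => ?_⟩
  unfold TL
  simp only [Set.mem_ofPred_eq]
  refine exists_congr fun w => and_congr_right fun hw => ?_
  apply hitV_congr
  intro i hi
  exact hA _ ⟨w, hw, i, hi, rfl⟩

theorem bad_local (M : Alg) (t : ℕ → ℕ) (P : Polynomial ℕ) (k : ℕ) (κ : ℝ) (i₀ L : ℕ)
    (hL : i₀ ≤ L) :
    ∃ S : Set (List Bool), S.Finite ∧ ∀ A A' : Oracle, (∀ y ∈ S, A y = A' y) →
      (A ∈ Bad M t P k κ i₀ L → A' ∈ Bad M t P k κ i₀ L) := by
  choose S1 f1 h1 using cap_local M t k
  choose S2 f2 h2 using TL_local P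
  refine ⟨(⋃ w ∈ {w : List Bool | w.length ≤ L + 1}, S1 w) ∪ ⋃ j ∈ Set.Iio L, S2 (str j),
    Set.Finite.union (Set.Finite.biUnion (List.finite_length_le _ _) fun w _ => f1 w)
      (Set.Finite.biUnion (Set.finite_Iio _) fun j _ => f2 _), fun A A' hA hb => ?_⟩
  have hc : ∀ w : List Bool, w.length ≤ L + 1 →
      cap (Fof M t A) k w = cap (Fof M t A') k w := by
    intro w hw
    apply h1 w
    intro y hy
    exact hA y (Or.inl (Set.mem_biUnion (show w ∈ {w : List Bool | w.length ≤ L + 1} from hw) hy))
  have hT : ∀ j < L, (str j ∈ TL P A ↔ str j ∈ TL P A') := by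
    intro j hj
    apply h2
    intro y hy
    exact hA y (Or.inr (Set.mem_biUnion (show j ∈ Set.Iio L from hj) hy))
  have hW : ∀ l ≤ L, WA P A l = WA P A' l := by
    intro l hl
    unfold WA Wd
    apply List.map_congr_left
    intro j hj
    exact decide_eq_decide.2 (hT j (lt_of_lt_of_le (List.mem_range.1 hj) hl))
  have hWl : ∀ l, (WA P A' l).length = l := by
    intro l
    unfold WA Wd
    rw [List.length_map, List.length_range]
  obtain ⟨b1, b2, l, hl0, hlL, b3⟩ := hb
  refine ⟨?_, ?_, l, hl0, hlL, ?_⟩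
  · intro l hl1 hl2
    have := b1 l hl1 hl2
    rw [hW l hl2.le] at this
    rw [← hc, ← hc, ← hc]
    · exact this
    · rw [hWl]; omega
    · rw [List.length_append, hWl, List.length_singleton]; omega
    · rw [List.length_append, hWl, List.length_singleton]; omega
  · rw [← hc, ← hW i₀ hL]
    · exact b2
    · rw [hWl]; omega
  · rw [← hc, ← hW l hlL]
    · exact b3
    · rw [hWl]; omega

/-! ### The parameters -/

theorem eval_mono (P : Polynomial ℕ) {a b : ℕ} (h : a ≤ b) : P.eval a ≤ P.eval b := by
  rw [Polynomial.eval_eq_sum_range, Polynomial.eval_eq_sum_range]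
  exact Finset.sum_le_sum fun i _ => Nat.mul_le_mul_left _ (Nat.pow_le_pow_left h i)

theorem pl_mono (P : Polynomial ℕ) {l l' : ℕ} (h : l ≤ l') : pl P l ≤ pl P l' := by
  unfold pl
  apply eval_mono
  rw [length_str, length_str]
  exact Nat.log_mono_right (by omega)

theorem slot_m (s : Slot P X) : s.m = pl P (idx s.x) := by
  unfold pl
  rw [str_idx]
  rfl

theorem prod_slots {L : ℕ} (hX : X = (range L).image str) (h5 : St_prv) (l : ℕ) (hl : l < L) :
    |(∏ s : Slot P X, if idx s.x = l then 1 - prv s.m s.w else 1) - 1 / 2| ≤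
      1 / 4 ^ pl P l := by
  classical
  have hmem : str l ∈ X := by
    rw [hX]
    exact Finset.mem_image_of_mem _ (Finset.mem_range.2 hl)
  have h1 : (∏ s : Slot P X, if idx s.x = l then 1 - prv s.m s.w else 1) =
      ∏ w : Fin (pl P l) → Bool, (1 - prv (pl P l) (List.ofFn w)) := by
    rw [Fintype.prod_sigma]
    rw [Finset.prod_eq_single (⟨str l, hmem⟩ : {x // x ∈ X})]
    · apply Finset.prod_congr rfl
      intro w _
      rw [if_pos (show idx (Slot.x (⟨⟨str l, hmem⟩, w⟩ : Slot P X)) = l from idx_str l)]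
      rfl
    · intro x _ hx
      apply Finset.prod_eq_one
      intro w _
      rw [if_neg]
      intro h
      apply hx
      apply Subtype.ext
      show x.1 = str l
      have h' : idx x.1 = l := h
      rw [← h', str_idx]
    · intro h
      exact absurd (Finset.mem_univ _) h
  rw [h1]
  exact (h5 (pl P l)).2

end K4c

open K4c in
theorem t_bad (h1 : St_game) (h2 : St_resample) (h3 : St_local) (h5 : St_prv) : St_bad := by
  classical
  intro M t P k κ i₀ L hP hκ hL
  obtain ⟨S, hS, hSloc⟩ := bad_local M t P k κ i₀ L hL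
  refine h2 P ((range L).image str) _ _ (measurable_of_finite _ S hS hSloc) hP ?_
  intro B vm vp hm hp
  -- the questions
  have hQ : ∀ (η : Slot P ((range L).image str) → Bool) (w : List Bool),
      ∃ Q : Finset (Slot P ((range L).image str)), Q.card ≤ t (5 * w.length + 4 * k + 8) ∧
        ∀ η', (∀ i ∈ Q, η' i = η i) →
          cap (Fof M t (mrg B vm vp η')) k w = cap (Fof M t (mrg B vm vp η)) k w := by
    intro η w
    obtain ⟨Q0, hc, hq⟩ := h3 M (mrg B vm vp η) (inp k (prec k w) w)
      (t (inp k (prec k w) w).length) []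
    refine ⟨Q0.biUnion fun y => Finset.univ.filter fun s : Slot P ((range L).image str) =>
      ∃ i < 3 * s.m, y = qst s.x s.w i, ?_, ?_⟩
    · rw [length_inp] at hc
      refine (Finset.card_biUnion_le_card_mul _ _ 1 ?_).trans (by rw [mul_one]; exact hc)
      intro y _
      rw [Finset.card_le_one]
      intro s hs s' hs'
      obtain ⟨i, _, hi⟩ := (Finset.mem_filter.1 hs).2
      obtain ⟨i', _, hi'⟩ := (Finset.mem_filter.1 hs').2
      exact (slot_qst_inj (hi.symm.trans hi')).1
    · intro η' hη
      have : M.run (mrg B vm vp η') (inp k (prec k w) w) (t (inp k (prec k w) w).length) [] =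
          M.run (mrg B vm vp η) (inp k (prec k w) w) (t (inp k (prec k w) w).length) [] := by
        apply hq
        intro y hy
        apply mrg_congr
        intro s i hi hyq
        apply hη
        rw [Finset.mem_biUnion]
        exact ⟨y, hy, Finset.mem_filter.2 ⟨Finset.mem_univ _, i, hi, hyq⟩⟩
      unfold cap Fof
      rw [this]
  choose Q hQc hQl using hQ
  have key := h1 (Slot P ((range L).image str)) inferInstance (fun s => idx s.x)
    (fun s => prv s.m s.w) (fun η w => cap (Fof M t (mrg B vm vp η)) k w) Q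
    (fun n => t (5 * n + 4 * k + 8)) (fun l => 2 / 2 ^ pl P l) (fun l => 2 / (4 : ℝ) ^ pl P l)
    κ i₀ L hL
    (fun s => ⟨((h5 s.m).1 s.w (slot_length s)).1, ((h5 s.m).1 s.w (slot_length s)).2.1⟩)
    (fun η w => by unfold cap; positivity)
    (fun η η' w h => hQl η w η' h) (fun η w => hQc η w)
    (fun l _ s hs => by
      refine ((h5 s.m).1 s.w (slot_length s)).2.2.trans ?_
      have h6 : pl P l ≤ s.m := by
        rw [slot_m]
        exact pl_mono P hs
      have h7 : (2 : ℝ) ^ pl P l ≤ 2 ^ s.m := pow_le_pow_right₀ (by norm_num) h6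
      exact div_le_div_of_nonneg_left (by norm_num) (by positivity) h7)
    (fun l _ hl => by
      refine (prod_slots rfl h5 l hl).trans (le_of_eq ?_)
      ring)
    (fun l => by positivity) (fun l => by positivity) hκ
  refine le_trans (le_of_eq ?_) key
  unfold PrB
  apply Finset.sum_congr rfl
  intro η _
  have hW : ∀ l ≤ L, WA P (mrg B vm vp η) l =
      We (fun s : Slot P ((range L).image str) => idx s.x) η l :=
    fun l hl => WA_eq_We rfl B vm vp η hm hp l hl
  have hiff : (mrg B vm vp η ∈ Bad M t P k κ i₀ L) ↔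
      ((∀ l, i₀ ≤ l → l < L →
          cap (Fof M t (mrg B vm vp η)) k
            (We (fun s : Slot P ((range L).image str) => idx s.x) η l ++ [false]) +
          cap (Fof M t (mrg B vm vp η)) k
            (We (fun s : Slot P ((range L).image str) => idx s.x) η l ++ [true]) ≤
          2 * cap (Fof M t (mrg B vm vp η)) k
            (We (fun s : Slot P ((range L).image str) => idx s.x) η l)) ∧
        cap (Fof M t (mrg B vm vp η)) k
          (We (fun s : Slot P ((range L).image str) => idx s.x) η i₀) ≤ κ ∧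
        ∃ l, i₀ ≤ l ∧ l ≤ L ∧ 1 ≤ cap (Fof M t (mrg B vm vp η)) k
          (We (fun s : Slot P ((range L).image str) => idx s.x) η l)) := by
    unfold Bad
    simp only [Set.mem_ofPred_eq]
    refine and_congr ?_ (and_congr ?_ ?_)
    · refine forall_congr' fun l => forall_congr' fun hl1 => forall_congr' fun hl2 => ?_
      rw [hW l hl2.le]
    · rw [hW i₀ hL]
    · refine exists_congr fun l => and_congr_right fun hl1 => and_congr_right fun hl2 => ?_
      rw [hW l hl2]
  simp only [hiff]

end Pool.Agent.H752.KM
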